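import Pool.Agent.Helper67.NX2.DefsB

/-!
# Montgomery's inequality

For a squarefree `r` and coefficients supported on integers coprime to `r`,
`|T(α)|² ≤ φ(r) ∑_{c mod r, (c,r)=1} |T(α + c/r)|²`: the Ramanujan sum of `r` at an integer
coprime to `r` is `μ(r) = ±1`, and Cauchy-Schwarz.
-/

set_option autoImplicit false

open Finset
open scoped BigOperators ComplexConjugate

namespace Pool.Agent.Helper67.NX2

open Pool.Agent.Helper57.NX

private lemma mg_e_add (x y : ℝ) : e (x + y) = e x * e y := by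
  unfold e
  rw [← Complex.exp_add]
  congr 1
  push_cast
  ring

private lemma mg_geom (m n : ℕ) (hm : 1 ≤ m) (hn : Nat.Coprime n m) :
    ∑ c ∈ range m, e ((c : ℝ) / m * n) = if m = 1 then 1 else 0 := by
  have hm0 : (m : ℂ) ≠ 0 := by exact_mod_cast (by omega : m ≠ 0)
  have hζ := Complex.isPrimitiveRoot_exp_of_coprime n m (by omega) hn
  have h1 : ∀ c ∈ range m, e ((c : ℝ) / m * n)
      = (Complex.exp (2 * Real.pi * Complex.I * ((n : ℂ) / m))) ^ c := by
    intro c _
    unfold e
    rw [← Complex.exp_nat_mul]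
    congr 1
    push_cast
    ring
  rw [Finset.sum_congr rfl h1]
  split_ifs with h
  · subst h
    simp
  · exact hζ.geom_sum_eq_zero (by omega)

private lemma mg_moebius (m : ℕ) :
    ∑ d ∈ m.divisors, (ArithmeticFunction.moebius d : ℂ) = if m = 1 then 1 else 0 := by
  have h : (ArithmeticFunction.moebius * (ArithmeticFunction.zeta : ArithmeticFunction ℤ)) m
      = (1 : ArithmeticFunction ℤ) m := by
    rw [ArithmeticFunction.moebius_mul_coe_zeta]
  rw [ArithmeticFunction.coe_mul_zeta_apply, ArithmeticFunction.one_apply] at h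
  have h2 : ((∑ i ∈ m.divisors, ArithmeticFunction.moebius i : ℤ) : ℂ)
      = ((if m = 1 then 1 else 0 : ℤ) : ℂ) := by rw [h]
  rw [Int.cast_sum] at h2
  rw [h2]
  split_ifs <;> simp

private lemma mg_ramanujan (r n : ℕ) (hr : 1 ≤ r) (hn : Nat.Coprime n r) :
    ∑ c ∈ (range r).filter (fun c => Nat.Coprime c r), e ((c : ℝ) / r * n)
      = (ArithmeticFunction.moebius r : ℂ) := by
  rw [Finset.sum_filter]
  have h1 : ∀ c ∈ range r, (if Nat.Coprime c r then e ((c : ℝ) / r * n) else 0)
      = ∑ d ∈ r.divisors, if d ∣ c then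
        (ArithmeticFunction.moebius d : ℂ) * e ((c : ℝ) / r * n) else 0 := by
    intro c _
    have hg : Nat.gcd c r ≠ 0 := by
      rw [Ne, Nat.gcd_eq_zero_iff]
      omega
    rw [← Finset.sum_filter, ← Finset.sum_mul]
    have hd : r.divisors.filter (fun d => d ∣ c) = (Nat.gcd c r).divisors := by
      ext d
      simp only [Finset.mem_filter, Nat.mem_divisors]
      constructor
      · rintro ⟨⟨h1, h2⟩, h3⟩
        exact ⟨Nat.dvd_gcd h3 h1, hg⟩
      · rintro ⟨h1, h2⟩
        exact ⟨⟨h1.trans (Nat.gcd_dvd_right _ _), by omega⟩, h1.trans (Nat.gcd_dvd_left _ _)⟩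
    rw [hd, mg_moebius _]
    by_cases h : Nat.Coprime c r
    · rw [if_pos h, if_pos (Nat.coprime_iff_gcd_eq_one.1 h), one_mul]
    · rw [if_neg h, if_neg (fun h' => h (Nat.coprime_iff_gcd_eq_one.2 h')), zero_mul]
  rw [Finset.sum_congr rfl h1, Finset.sum_comm]
  have h2 : ∀ d ∈ r.divisors, (∑ c ∈ range r, if d ∣ c then
      (ArithmeticFunction.moebius d : ℂ) * e ((c : ℝ) / r * n) else 0)
      = if d = r then (ArithmeticFunction.moebius d : ℂ) else 0 := by
    intro d hd
    rw [Nat.mem_divisors] at hd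
    obtain ⟨⟨m, hm⟩, _⟩ := hd
    have hd0 : 1 ≤ d := by
      rcases Nat.eq_zero_or_pos d with h | h
      · subst h; omega
      · exact h
    have hm0 : 1 ≤ m := by
      rcases Nat.eq_zero_or_pos m with h | h
      · subst h; omega
      · exact h
    have himg : (range r).filter (fun c => d ∣ c) = (range m).image (fun c => d * c) := by
      ext c
      simp only [Finset.mem_filter, Finset.mem_range, Finset.mem_image]
      constructor
      · rintro ⟨h1, k, rfl⟩
        refine ⟨k, ?_, rfl⟩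
        rw [hm] at h1
        exact lt_of_mul_lt_mul_left h1 (Nat.zero_le _)
      · rintro ⟨k, hk, rfl⟩
        refine ⟨?_, Dvd.intro _ rfl⟩
        rw [hm]
        exact Nat.mul_lt_mul_of_pos_left hk hd0
    rw [← Finset.sum_filter, himg, Finset.sum_image (by
      intro x _ y _ hxy
      exact Nat.eq_of_mul_eq_mul_left hd0 hxy), ← Finset.mul_sum]
    have hcop : Nat.Coprime n m := Nat.Coprime.coprime_dvd_right (Dvd.intro_left d hm.symm) hn
    have h3 : ∀ c ∈ range m, e (((d * c : ℕ) : ℝ) / r * n) = e ((c : ℝ) / m * n) := by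
      intro c _
      congr 1
      have hdR : (d : ℝ) ≠ 0 := by exact_mod_cast (by omega : d ≠ 0)
      have hmR : (m : ℝ) ≠ 0 := by exact_mod_cast (by omega : m ≠ 0)
      rw [hm]
      push_cast
      field_simp
    rw [Finset.sum_congr rfl h3, mg_geom m n hm0 hcop]
    by_cases h : m = 1
    · subst h
      rw [if_pos rfl, mul_one, if_pos (by omega)]
    · rw [if_neg h, mul_zero, if_neg]
      intro h'
      apply h
      rw [h'] at hm
      have : r * m = r * 1 := by omega
      exact Nat.eq_of_mul_eq_mul_left (by omega) this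
  rw [Finset.sum_congr rfl h2, Finset.sum_ite_eq' r.divisors r]
  rw [if_pos (Nat.mem_divisors_self r (by omega))]

theorem montgomery (r : ℕ) (hr : Squarefree r) (S : Finset ℕ) (a : ℕ → ℂ)
    (ha : ∀ n ∈ S, a n ≠ 0 → Nat.Coprime n r) (α : ℝ) :
    ‖∑ n ∈ S, a n * e (α * n)‖ ^ 2 ≤ r.totient *
      ∑ c ∈ (range r).filter (fun c => Nat.Coprime c r),
        ‖∑ n ∈ S, a n * e ((α + c / r) * n)‖ ^ 2 := by
  have hr0 : 1 ≤ r := Nat.one_le_iff_ne_zero.2 hr.ne_zero
  have hsum : ∑ c ∈ (range r).filter (fun c => Nat.Coprime c r),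
      ∑ n ∈ S, a n * e ((α + c / r) * n)
      = (ArithmeticFunction.moebius r : ℂ) * ∑ n ∈ S, a n * e (α * n) := by
    rw [Finset.sum_comm, Finset.mul_sum]
    apply Finset.sum_congr rfl
    intro n hn
    by_cases h0 : a n = 0
    · simp [h0]
    · rw [← mg_ramanujan r n hr0 (ha n hn h0), Finset.sum_mul]
      apply Finset.sum_congr rfl
      intro c _
      rw [add_mul, mg_e_add]
      ring
  have hμ : ‖(ArithmeticFunction.moebius r : ℂ)‖ = 1 := by
    rw [Complex.norm_intCast]
    have := ArithmeticFunction.abs_moebius_eq_one_of_squarefree hr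
    exact_mod_cast this
  have hcard : (((range r).filter (fun c => Nat.Coprime c r)).card : ℝ) = r.totient := by
    rw [Nat.totient_eq_card_coprime]
    congr 2
    ext c
    simp only [Finset.mem_filter]
    rw [Nat.coprime_comm]
  calc ‖∑ n ∈ S, a n * e (α * n)‖ ^ 2
      = ‖(ArithmeticFunction.moebius r : ℂ) * ∑ n ∈ S, a n * e (α * n)‖ ^ 2 := by
        rw [norm_mul, hμ, one_mul]
    _ = ‖∑ c ∈ (range r).filter (fun c => Nat.Coprime c r),
          ∑ n ∈ S, a n * e ((α + c / r) * n)‖ ^ 2 := by rw [hsum]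
    _ ≤ (∑ c ∈ (range r).filter (fun c => Nat.Coprime c r),
          ‖∑ n ∈ S, a n * e ((α + c / r) * n)‖) ^ 2 := by
        apply pow_le_pow_left₀ (norm_nonneg _)
        exact norm_sum_le _ _
    _ ≤ _ := by
        rw [← hcard]
        exact sq_sum_le_card_mul_sum_sq

end Pool.Agent.Helper67.NX2
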