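import Pool.Agent.Helper67.NX2.Defs

/-!
# NX2-A3: exponential sums with mixed exponents
-/

set_option autoImplicit false

open Finset
open scoped BigOperators ComplexConjugate

namespace Pool.Agent.Helper67.NX2

open Pool.Agent.Helper57.NX

theorem es_mixed (hES : ES0) {m : ℕ} (c : Fin m → ℝ) (hc : Function.Injective c)
    (hc0 : ∀ i, 0 < c i) (d0 : ℕ) (Λ a ε : ℝ) (hΛ : 1 ≤ Λ) (hε : 0 < ε) :
    ∃ x0 : ℝ, 0 < x0 ∧ ∃ σ : ℝ, 0 < σ ∧ ∃ D0 : ℝ, ∀ D : ℝ, D0 ≤ D → ∀ ρ : ℝ, 0 ≤ ρ → ρ ≤ 1 →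
    ∀ v : Fin m → ℝ, (∀ i, ¬ IsN (c i) → |v i| ≤ D ^ a) →
    (∃ i, ¬ IsN (c i) ∧ D ^ ε ≤ |v i|) →
    ∀ p : Polynomial ℝ, p.natDegree ≤ d0 →
    ∀ u T : ℕ, D ≤ u → (u : ℝ) + T ≤ Λ * D → D ^ (1 - x0) ≤ T →
    ‖𝔼 k ∈ Ico u (u + T), e (∑ i, v i * (((k : ℝ) + ρ) / D) ^ (c i) + p.eval (k : ℝ))‖ ≤
      D ^ (-σ) := by
  classical
  set κ := {i : Fin m // ¬ IsN (c i)} with hκ
  set e0 : Fin (Fintype.card κ) ≃ κ := (Fintype.equivFin κ).symm with he0
  set d : ℕ := d0 + ∑ i : Fin m, ⌊c i⌋₊ with hd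
  obtain ⟨x0, hx0, σ, hσ, D0, hD0⟩ := hES (Fintype.card κ) d (fun j => c (e0 j).1)
    (fun i j hij => by
      have h1 := hc hij
      exact e0.injective (Subtype.ext h1))
    (fun j n hn => (e0 j).2 ⟨n, hn⟩) Λ a ε hΛ hε
  refine ⟨x0, hx0, σ, hσ, D0, fun D hD ρ hρ0 hρ1 v hv hex p hp u T hu hT1 hT2 => ?_⟩
  -- the natural exponents form a polynomial
  set q : Fin m → Polynomial ℝ := fun i =>
    Polynomial.C (v i) * (Polynomial.C (1 / D) * (Polynomial.X + Polynomial.C ρ)) ^ ⌊c i⌋₊ with hq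
  set p' : Polynomial ℝ := p + ∑ i ∈ univ.filter (fun i => IsN (c i)), q i with hp'
  have hqd : ∀ i, (q i).natDegree ≤ d := by
    intro i
    have h1 : (q i).natDegree ≤ ⌊c i⌋₊ := by
      have h2 : (Polynomial.C (1 / D) * (Polynomial.X + Polynomial.C ρ)).natDegree ≤ 1 :=
        (Polynomial.natDegree_C_mul_le _ _).trans (Polynomial.natDegree_X_add_C ρ).le
      calc (q i).natDegree ≤
            ((Polynomial.C (1 / D) * (Polynomial.X + Polynomial.C ρ)) ^ ⌊c i⌋₊).natDegree :=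
            Polynomial.natDegree_C_mul_le _ _
        _ ≤ ⌊c i⌋₊ * 1 := Polynomial.natDegree_pow_le_of_le _ h2
        _ = ⌊c i⌋₊ := mul_one _
    have h3 : ⌊c i⌋₊ ≤ ∑ i : Fin m, ⌊c i⌋₊ :=
      Finset.single_le_sum (f := fun i => ⌊c i⌋₊) (fun _ _ => Nat.zero_le _) (mem_univ i)
    omega
  have hp'd : p'.natDegree ≤ d := by
    refine (Polynomial.natDegree_add_le _ _).trans (max_le (hp.trans (Nat.le_add_right _ _)) ?_)
    exact Polynomial.natDegree_sum_le_of_forall_le _ _ fun i _ => hqd i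
  have key := hD0 D hD ρ hρ0 hρ1 (fun j => v (e0 j).1) (fun j => hv _ (e0 j).2) (by
    obtain ⟨i, hi, hi2⟩ := hex
    exact ⟨e0.symm ⟨i, hi⟩, by simpa using hi2⟩) p' hp'd u T hu hT1 hT2
  have hsum : ∀ k : ℕ,
      ∑ j, v (e0 j).1 * (((k : ℝ) + ρ) / D) ^ (c (e0 j).1) + p'.eval (k : ℝ) =
      ∑ i, v i * (((k : ℝ) + ρ) / D) ^ (c i) + p.eval (k : ℝ) := by
    intro k
    have h1 : ∑ j, v (e0 j).1 * (((k : ℝ) + ρ) / D) ^ (c (e0 j).1) =
        ∑ i ∈ univ.filter (fun i => ¬ IsN (c i)), v i * (((k : ℝ) + ρ) / D) ^ (c i) := by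
      rw [Finset.sum_subtype (univ.filter (fun i => ¬ IsN (c i))) (p := fun i => ¬ IsN (c i))
        (by simp) (fun i => v i * (((k : ℝ) + ρ) / D) ^ (c i))]
      exact Fintype.sum_equiv e0 _ _ fun j => rfl
    have h2 : p'.eval (k : ℝ) = p.eval (k : ℝ) +
        ∑ i ∈ univ.filter (fun i => IsN (c i)), v i * (((k : ℝ) + ρ) / D) ^ (c i) := by
      rw [hp', Polynomial.eval_add, Polynomial.eval_finsetSum]
      congr 1
      apply Finset.sum_congr rfl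
      intro i hi
      obtain ⟨n, hn⟩ := (Finset.mem_filter.mp hi).2
      simp only [hq, Polynomial.eval_mul, Polynomial.eval_C, Polynomial.eval_pow,
        Polynomial.eval_add, Polynomial.eval_X]
      rw [hn, Nat.floor_natCast, Real.rpow_natCast]
      congr 2
      ring
    rw [h1, h2, ← Finset.sum_filter_add_sum_filter_not univ (fun i => IsN (c i))
      (fun i => v i * (((k : ℝ) + ρ) / D) ^ (c i))]
    ring
  simp_rw [hsum] at key
  exact key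

end Pool.Agent.Helper67.NX2
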